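import Pool.Agent.UTR.Stmts
import Pool.Agent.Helper64_FR.FIX

/-!
# UTR, row CHN
-/

open MeasureTheory Matrix Finset
open scoped ComplexConjugate

namespace Pool.Agent.UTR.H90

open Pool.Agent.Helper64_FR Pool.Agent.UTR

variable {n : ℕ}

theorem norm_P_le (ρ : URep n) (B : Finset (Fin n)) (x : ρ.Sp) : ‖ρ.P B x‖ ≤ ‖x‖ := by
  have h1 : (inner ℂ (ρ.P B x) (ρ.P B x) : ℂ) = inner ℂ (ρ.P B x) x :=
    FIX.inner_P_of_inv ρ B (ρ.P B x) x (FIX.P_apply_inv ρ B x)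
  have h2 : ‖ρ.P B x‖ ^ 2 ≤ ‖ρ.P B x‖ * ‖x‖ := by
    have h3 : ‖(inner ℂ (ρ.P B x) (ρ.P B x) : ℂ)‖ = ‖ρ.P B x‖ ^ 2 := by
      rw [inner_self_eq_norm_sq_to_K]
      simp
    rw [← h3, h1]
    exact norm_inner_le_norm _ _
  rcases eq_or_lt_of_le (norm_nonneg (ρ.P B x)) with h | h
  · rw [← h]; exact norm_nonneg _
  · nlinarith

theorem chain_nonempty {w : Finset (Fin n) → ℝ} {μ : ℝ} {S : Finset (Fin n)} (h : Chain w μ S) :
    S.Nonempty := by
  cases h with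
  | base i => exact Finset.singleton_nonempty i
  | step S l _ _ _ => exact Finset.insert_nonempty l S

/-- CHN. -/
theorem chn (hFRM : FRMStmt) (hSTP : STPStmt) : CHNStmt := by
  intro n ρ w hw μ S hS
  induction hS with
  | base i =>
    intro f hf
    have h1 : ρ.P {i} f = f := FIX.P_inv ρ {i} f (hf i)
    rw [h1, sub_self, mul_zero]
    refine Finset.sum_nonneg fun B _ => mul_nonneg (hw B) ?_
    have h2 := norm_P_le ρ (B ∩ {i}) f
    have h3 := norm_nonneg (ρ.P (B ∩ {i}) f)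
    nlinarith
  | step S l hl hC hO ih =>
    obtain ⟨F⟩ := hFRM n ρ S l hl (chain_nonempty hC)
    exact hSTP n ρ S l hl F w hw μ ih hO

end Pool.Agent.UTR.H90
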