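import Pool.Agent.UTR.Stmts
import Pool.Agent.Helper47_FR.Up

/-!
# UTR, row GRM
-/

open MeasureTheory Matrix Finset
open scoped ComplexConjugate

namespace Pool.Agent.UTR.H90

open Pool.Agent.Helper64_FR Pool.Agent.UTR

variable {n : ℕ}

/-- conjugation of `E_ab` by a transposition -/
theorem swap_EE (ρ : URep n) (D : Matrix (Fin n) (Fin n) ℂ →ₗ[ℂ] (ρ.Sp →L[ℂ] ρ.Sp)) (hD : IsDer ρ D)
    (i j a b : Fin n) (x : ρ.Sp) : ρ.op (H47.sw i j) (D (EE a b) x) =
      D (EE (Equiv.swap i j a) (Equiv.swap i j b)) (ρ.op (H47.sw i j) x) := by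
  have h := hD.conj_eq (H47.sw i j) (EE a b)
  have h2 : ((H47.sw i j : UU n) : Matrix (Fin n) (Fin n) ℂ) * EE a b *
      star ((H47.sw i j : UU n) : Matrix (Fin n) (Fin n) ℂ) =
      EE (Equiv.swap i j a) (Equiv.swap i j b) := by
    have h3 := H47.sw_conj i j (EE a b)
    rw [show ((H47.sw i j : UU n) : Matrix (Fin n) (Fin n) ℂ) * EE a b *
      star ((H47.sw i j : UU n) : Matrix (Fin n) (Fin n) ℂ) = _ from h3]
    ext p q
    rw [Matrix.submatrix_apply]
    show Matrix.single a b (1 : ℂ) _ _ = Matrix.single _ _ (1 : ℂ) p q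
    rw [Matrix.single_apply, Matrix.single_apply]
    have e1 : (a = Equiv.swap i j p) ↔ (Equiv.swap i j a = p) := by
      constructor
      · intro h; rw [h, Equiv.swap_apply_self]
      · intro h; rw [← h, Equiv.swap_apply_self]
    have e2 : (b = Equiv.swap i j q) ↔ (Equiv.swap i j b = q) := by
      constructor
      · intro h; rw [h, Equiv.swap_apply_self]
      · intro h; rw [← h, Equiv.swap_apply_self]
    simp only [e1, e2]
  rw [h2] at h
  exact congrArg (fun T : ρ.Sp →L[ℂ] ρ.Sp => T x) h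

theorem inner_op_op (ρ : URep n) (g : UU n) (x y : ρ.Sp) :
    (inner ℂ (ρ.op g x) (ρ.op g y) : ℂ) = inner ℂ x y := by
  rw [FIX.inner_op_left]
  have h : ρ.op g⁻¹ (ρ.op g y) = y := by
    have := FIX.op_mul ρ g⁻¹ g
    rw [inv_mul_cancel, FIX.op_one] at this
    exact (congrArg (fun T : ρ.Sp →L[ℂ] ρ.Sp => T y) this).symm
  rw [h]

/-- the transposition of two elements of `S` exchanges `T_ii v` and `T_jj v` -/
theorem swap_Tz (ρ : URep n) (D : Matrix (Fin n) (Fin n) ℂ →ₗ[ℂ] (ρ.Sp →L[ℂ] ρ.Sp)) (hD : IsDer ρ D)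
    {S : Finset (Fin n)} {l : Fin n} (hl : l ∉ S) {i j : Fin n} (hi : i ∈ S) (hj : j ∈ S) (v : ρ.Sp)
    (hv : Fx ρ S v) : ρ.op (H47.sw i j) (Tz ρ D i i l v) = Tz ρ D j j l v := by
  have hli : Equiv.swap i j l = l :=
    Equiv.swap_apply_of_ne_of_ne (fun h => hl (h ▸ hi)) (fun h => hl (h ▸ hj))
  show ρ.op (H47.sw i j) (D (EE i l) (D (EE l i) v)) = D (EE j l) (D (EE l j) v)
  rw [swap_EE ρ D hD, swap_EE ρ D hD, hli, Equiv.swap_apply_left, hv _ (H47.sw_mem hi hj)]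

/-- GRM. -/
theorem grm (h1 : GR1Stmt) (h2 : GR2Stmt) : GRMStmt := by
  intro n ρ D hD S l hl v v' hv hv' fv fv' i hi j hj
  set a : Fin n → Fin n → ℂ := fun p q => inner ℂ (Tz ρ D p p l v) (Tz ρ D q q l v') with ha
  -- the diagonal entries are twice the others
  have hd : ∀ p ∈ S, ∀ q ∈ S, p ≠ q → a p p = 2 * a p q := by
    intro p hp q hq hpq
    have e1 := h1 n ρ D hD S l hl v v' hv hv' fv fv' p hp q hq hpq
    have e2 := h2 n ρ D hD S l hl v v' hv hv' fv fv' p hp q hq hpq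
    show (inner ℂ (Tz ρ D p p l v) (Tz ρ D p p l v') : ℂ) = 2 * inner ℂ (Tz ρ D p p l v) (Tz ρ D q q l v')
    rw [e2, e1]; ring
  have hs : ∀ p ∈ S, ∀ q ∈ S, a p p = a q q := by
    intro p hp q hq
    show (inner ℂ (Tz ρ D p p l v) (Tz ρ D p p l v') : ℂ) = inner ℂ (Tz ρ D q q l v) (Tz ρ D q q l v')
    rw [← swap_Tz ρ D hD hl hp hq v fv, ← swap_Tz ρ D hD hl hp hq v' fv', inner_op_op]
  set t : ℂ := a i i / 2 with ht
  have hat : ∀ p ∈ S, ∀ q ∈ S, a p q = (if p = q then 2 else 1) * t := by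
    intro p hp q hq
    by_cases h : p = q
    · subst h
      rw [if_pos rfl, hs p hp i hi, ht]; ring
    · rw [if_neg h, ht, hs i hi p hp, hd p hp q hq h]; ring
  have hK : (inner ℂ (Kz ρ D S l v) (Kz ρ D S l v') : ℂ) = (S.card : ℂ) * (S.card + 1) * t := by
    have e1 : Kz ρ D S l v = ∑ p ∈ S, Tz ρ D p p l v := by
      unfold Kz; rw [ContinuousLinearMap.sum_apply]
    have e2 : Kz ρ D S l v' = ∑ p ∈ S, Tz ρ D p p l v' := by
      unfold Kz; rw [ContinuousLinearMap.sum_apply]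
    rw [e1, e2, sum_inner]
    have e3 : ∀ p ∈ S, (inner ℂ (Tz ρ D p p l v) (∑ q ∈ S, Tz ρ D q q l v') : ℂ) = ((S.card : ℂ) + 1) * t := by
      intro p hp
      rw [inner_sum]
      have e4 : ∀ q ∈ S, (inner ℂ (Tz ρ D p p l v) (Tz ρ D q q l v') : ℂ) =
          (if p = q then 1 else 0) * t + t := by
        intro q hq
        have := hat p hp q hq
        rw [show (inner ℂ (Tz ρ D p p l v) (Tz ρ D q q l v') : ℂ) = a p q from rfl, this]
        split_ifs <;> ring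
      rw [Finset.sum_congr rfl e4, Finset.sum_add_distrib, ← Finset.sum_mul, Finset.sum_ite_eq,
        if_pos hp, Finset.sum_const, nsmul_eq_mul]
      ring
    rw [Finset.sum_congr rfl e3, Finset.sum_const, nsmul_eq_mul]
    ring
  have hc : (S.card : ℂ) ≠ 0 := by
    have : 0 < S.card := Finset.card_pos.2 ⟨i, hi⟩
    exact_mod_cast this.ne'
  have hc1 : (S.card : ℂ) + 1 ≠ 0 := by
    have : (0 : ℕ) < S.card + 1 := Nat.succ_pos _
    exact_mod_cast this.ne'
  rw [hK]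
  rw [show (inner ℂ (Tz ρ D i i l v) (Tz ρ D j j l v') : ℂ) = a i j from rfl, hat i hi j hj]
  field_simp

end Pool.Agent.UTR.H90
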