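import Pool.Agent.UTR.Stmts

/-!
# UTR, row LEF
-/

open MeasureTheory Matrix Finset
open scoped ComplexConjugate

namespace Pool.Agent.UTR.H90

open Pool.Agent.Helper64_FR Pool.Agent.UTR

variable {n : ℕ}

theorem vr_congr {B : Finset (Fin n)} {y z : Fin n → ℝ} (h : ∀ i ∈ B, y i = z i) : vr B y = vr B z := by
  unfold vr
  rw [Finset.sum_congr rfl (fun i hi => by rw [h i hi] : ∀ i ∈ B, y i ^ 2 = z i ^ 2),
    Finset.sum_congr rfl h]

theorem vr_insert {T : Finset (Fin n)} {l : Fin n} (hl : l ∉ T) (y : Fin n → ℝ) (c : ℝ) :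
    vr (insert l T) (Function.update y l c) =
      ∑ i ∈ T, y i ^ 2 + c ^ 2 - (∑ i ∈ T, y i + c) ^ 2 / (T.card + 1) := by
  have h : ∀ i ∈ T, Function.update y l c i = y i := by
    intro i hi
    exact Function.update_of_ne (fun he : i = l => hl (he ▸ hi)) _ _
  unfold vr
  rw [Finset.sum_insert hl, Finset.sum_insert hl, Function.update_self,
    Finset.sum_congr rfl (fun i hi => by rw [h i hi] : ∀ i ∈ T, Function.update y l c i ^ 2 = y i ^ 2),
    Finset.sum_congr rfl h, Finset.card_insert_of_notMem hl]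
  push_cast
  ring

theorem vr_insert_mean {T : Finset (Fin n)} {l : Fin n} (hl : l ∉ T) (y : Fin n → ℝ) :
    vr (insert l T) (Function.update y l ((∑ i ∈ T, y i) / T.card)) = vr T y := by
  rw [vr_insert hl]
  unfold vr
  rcases T.eq_empty_or_nonempty with h | h
  · subst h; simp
  · have h0 : (0 : ℝ) < T.card := by exact_mod_cast h.card_pos
    field_simp
    ring

theorem vr_le_insert {T : Finset (Fin n)} {l : Fin n} (hl : l ∉ T) (y : Fin n → ℝ) (c : ℝ) :
    vr T y ≤ vr (insert l T) (Function.update y l c) := by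
  rw [vr_insert hl]
  unfold vr
  rcases T.eq_empty_or_nonempty with h | h
  · subst h; simp
  · have h0 : (0 : ℝ) < T.card := by exact_mod_cast h.card_pos
    set A := ∑ i ∈ T, y i
    set s : ℝ := (T.card : ℝ)
    have h1 : c ^ 2 - (A + c) ^ 2 / (s + 1) + A ^ 2 / s = (A - s * c) ^ 2 / (s * (s + 1)) := by
      field_simp
      ring
    have h2 : 0 ≤ (A - s * c) ^ 2 / (s * (s + 1)) := by positivity
    linarith

/-- LEF. -/
theorem lef : LEFStmt := by
  intro n w S l hl hL μ hμ hO y
  obtain ⟨B₀, hB⟩ := hL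
  set c : ℝ := (∑ i ∈ B₀.erase l, y i) / (B₀.erase l).card with hc
  have h1 := hO (Function.update y l c)
  have h2 : μ * vr S y ≤ μ * vr (insert l S) (Function.update y l c) :=
    mul_le_mul_of_nonneg_left (vr_le_insert hl y c) hμ
  refine h2.trans (h1.trans (le_of_eq ?_))
  refine Finset.sum_congr rfl fun B _ => ?_
  by_cases hw : w B = 0
  · rw [hw, zero_mul, zero_mul]
  congr 1
  by_cases hlB : l ∈ B
  · have hI : B ∩ insert l S = insert l (B ∩ S) := by
      ext i
      simp only [Finset.mem_inter, Finset.mem_insert]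
      constructor
      · rintro ⟨a, b | b⟩
        · exact Or.inl b
        · exact Or.inr ⟨a, b⟩
      · rintro (a | ⟨a, b⟩)
        · exact ⟨a ▸ hlB, Or.inl a⟩
        · exact ⟨a, Or.inr b⟩
    have hlT : l ∉ B ∩ S := fun h => hl (Finset.mem_inter.1 h).2
    rcases hB B hw hlB with h | h
    · have hE : B ∩ S = ∅ := by
        rw [hI] at h
        rw [Finset.eq_empty_iff_forall_notMem]
        intro i hi
        have : i ∈ ({l} : Finset (Fin n)) := h ▸ Finset.mem_insert_of_mem hi
        rw [Finset.mem_singleton] at this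
        exact hlT (this ▸ hi)
      rw [hI, hE, vr_insert (by simp)]
      simp [vr]
    · have hT : B₀.erase l = B ∩ S := by
        rw [← h, hI, Finset.erase_insert hlT]
      rw [hI, hc, hT]
      exact vr_insert_mean hlT y
  · have hI : B ∩ insert l S = B ∩ S := by
      ext i
      simp only [Finset.mem_inter, Finset.mem_insert]
      constructor
      · rintro ⟨a, b | b⟩
        · exact absurd (b ▸ a) hlB
        · exact ⟨a, b⟩
      · rintro ⟨a, b⟩
        exact ⟨a, Or.inr b⟩
    rw [hI]
    refine vr_congr fun i hi => ?_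
    exact Function.update_of_ne (fun he : i = l => hlB (he ▸ (Finset.mem_inter.1 hi).1)) _ _

end Pool.Agent.UTR.H90
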